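import Mathlib

/-!
# MP_94ebd3_co: the formula `φ₃ : (x + y = z) ∧ (y = t x)` is Ramsey partition regular

We show that every finite colouring of the positive integers admits an increasing sequence
`h 0 < h 1 < ...` such that one single colour class contains all finite sums `∑_{i ∈ F} h i`
and all quotients `(∑_{j ∈ G} h j) / (∑_{i ∈ F} h i)` for nonempty finite sets `F < G`
(the divisions being exact).  In particular `φ₃` is Ramsey PR in `(x, y) | z, t`, even with
`H`, the sums and the quotients in one class.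

The proof: let `p` be an additive idempotent ultrafilter on the positive integers.  All the
ultrafilters `p / x` are again additive idempotents; the colour of `p / x` is constant, say `i`,
for `p`-almost all `x`; and passing from `p` to `p / y` for a suitable `y` makes the colour of
the ultrafilter itself equal to `i`, while the colour of the quotients does not change.
-/

namespace Pool.Agent.Results.MP_94ebd3_co.SumQuotient

open Filter

/-- A formula `φ x y z t` is *Ramsey partition regular in `(x, y) | z, t`*: for every finite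
colouring of the positive integers there are colours `i`, `j` and an infinite set `H` of positive
integers of colour `i` such that for all `x < y` in `H` there are positive integers `z`, `t`, both
of colour `j`, with `φ x y z t`. -/
def RamseyPR (φ : ℕ → ℕ → ℕ → ℕ → Prop) : Prop :=
  ∀ (r : ℕ) (c : ℕ → Fin r), ∃ (i j : Fin r) (H : Set ℕ), H.Infinite ∧
    (∀ h ∈ H, 0 < h ∧ c h = i) ∧
    ∀ x ∈ H, ∀ y ∈ H, x < y → ∃ z t : ℕ, 0 < z ∧ 0 < t ∧ c z = j ∧ c t = j ∧ φ x y z t

/-- The formula `φ₃`. -/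
def phi3 (x y z t : ℕ) : Prop := x + y = z ∧ y = t * x

/-- Additive idempotents of `βℕ`, concentrated on the positive integers. -/
def Idem (P : Ultrafilter ℕ) : Prop :=
  (∀ D : ℕ → Prop, (∀ᶠ m in (P : Filter ℕ), D m) ↔
    ∀ᶠ m in (P : Filter ℕ), ∀ᶠ m' in (P : Filter ℕ), D (m + m')) ∧
    ∀ᶠ m in (P : Filter ℕ), 0 < m

section
attribute [local instance] Ultrafilter.mul Ultrafilter.add Ultrafilter.semigroup
  Ultrafilter.addSemigroup

lemma exists_idem : ∃ P, Idem P := by
  obtain ⟨U, hU, -⟩ := Hindman.exists_idempotent_ultrafilter_le_FS (M := ℕ+) (Stream'.const 1)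
  refine ⟨U.map (fun m : ℕ+ => (m : ℕ)), ?_, ?_⟩
  · intro D
    simp only [Ultrafilter.coe_map, Filter.eventually_map]
    have h := Ultrafilter.eventually_add U U (fun m => D (m : ℕ))
    rw [hU] at h
    simpa using h
  · simp only [Ultrafilter.coe_map, Filter.eventually_map]
    exact Eventually.of_forall fun m => m.pos

end

lemma const_color {ι : Type*} [Finite ι] (P : Ultrafilter ℕ) (f : ℕ → ι) :
    ∃ i, ∀ᶠ m in (P : Filter ℕ), f m = i := by
  by_contra hcon
  simp only [not_exists] at hcon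
  have h1 : ∀ i, ∀ᶠ m in (P : Filter ℕ), ¬ f m = i := fun i =>
    Ultrafilter.eventually_not.2 (hcon i)
  have h2 : ∀ᶠ m in (P : Filter ℕ), ∀ i, ¬ f m = i := eventually_all.2 h1
  obtain ⟨m, hm⟩ := h2.exists
  exact hm (f m) rfl

lemma dvd_large {P : Ultrafilter ℕ} (hP : Idem P) (n : ℕ) (hn : 0 < n) :
    ∀ᶠ m in (P : Filter ℕ), n ∣ m := by
  obtain ⟨a, ha⟩ := const_color P (fun m => (⟨m % n, Nat.mod_lt m hn⟩ : Fin n))
  have ha' : ∀ᶠ m in (P : Filter ℕ), m % n = a.1 := by
    filter_upwards [ha] with m hm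
    exact congrArg Fin.val hm
  have h2 := (hP.1 _).1 ha'
  obtain ⟨m, hm, hm2⟩ := (ha'.and h2).exists
  obtain ⟨m', hm', hm2'⟩ := (ha'.and hm2).exists
  have h3 : (a.1 + a.1) % n = a.1 := by
    have h4 : (m + m') % n = ((m % n) + (m' % n)) % n := Nat.add_mod _ _ _
    rw [hm, hm', hm2'] at h4
    exact h4.symm
  have h5 : a.1 = 0 := by
    have h6 : a.1 < n := a.2
    by_contra h0
    have h7 : n ∣ a.1 := by
      have h8 : (a.1 + a.1) ≡ (a.1 + 0) [MOD n] := by
        show (a.1 + a.1) % n = (a.1 + 0) % n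
        rw [h3, Nat.add_zero, Nat.mod_eq_of_lt h6]
      have h9 : a.1 ≡ 0 [MOD n] := Nat.ModEq.add_left_cancel' a.1 h8
      exact (Nat.modEq_zero_iff_dvd).1 h9
    exact absurd (Nat.le_of_dvd (Nat.pos_of_ne_zero h0) h7) (not_le.2 h6)
  filter_upwards [ha'] with m hm
  rw [h5] at hm
  exact Nat.dvd_of_mod_eq_zero hm

lemma gt_large {P : Ultrafilter ℕ} (hP : Idem P) (n : ℕ) :
    ∀ᶠ m in (P : Filter ℕ), n < m := by
  filter_upwards [dvd_large hP (n + 1) n.succ_pos, hP.2] with m hm h0
  exact Nat.lt_of_succ_le (Nat.le_of_dvd h0 hm)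

/-- `p / y` is again an additive idempotent. -/
lemma idem_div {P : Ultrafilter ℕ} (hP : Idem P) {y : ℕ} (hy : 0 < y) :
    Idem (P.map (fun m => m / y)) := by
  refine ⟨?_, ?_⟩
  · intro D
    simp only [Ultrafilter.coe_map, Filter.eventually_map]
    rw [hP.1 (fun m => D (m / y))]
    constructor
    · intro h
      filter_upwards [h, dvd_large hP y hy] with m hm hd
      filter_upwards [hm] with m' hm'
      rwa [Nat.add_div_of_dvd_right hd] at hm'
    · intro h
      filter_upwards [h, dvd_large hP y hy] with m hm hd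
      filter_upwards [hm] with m' hm'
      rwa [Nat.add_div_of_dvd_right hd]
  · simp only [Ultrafilter.coe_map, Filter.eventually_map]
    filter_upwards [dvd_large hP y hy, hP.2] with m hd h0
    exact Nat.div_pos (Nat.le_of_dvd h0 hd) hy

/-- The key step: an additive idempotent with the colour of its quotients. -/
lemma exists_good (r : ℕ) (c : ℕ → Fin r) :
    ∃ (P : Ultrafilter ℕ) (i : Fin r), Idem P ∧ (∀ᶠ m in (P : Filter ℕ), c m = i) ∧
      ∀ᶠ x in (P : Filter ℕ), ∀ᶠ m in (P : Filter ℕ), c (m / x) = i := by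
  obtain ⟨P, hP⟩ := exists_idem
  choose ψ hψ using fun x : ℕ => const_color P (fun m => c (m / x))
  obtain ⟨i, hi⟩ := const_color P ψ
  obtain ⟨y, hy0, hyi⟩ := (hP.2.and hi).exists
  refine ⟨P.map (fun m => m / y), i, idem_div hP hy0, ?_, ?_⟩
  · simp only [Ultrafilter.coe_map, Filter.eventually_map]
    have := hψ y
    rwa [hyi] at this
  · simp only [Ultrafilter.coe_map, Filter.eventually_map]
    filter_upwards [hi, dvd_large hP y hy0] with x hx hd
    have h1 := hψ x
    rw [hx] at h1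
    filter_upwards [h1] with m hm
    rw [Nat.div_div_eq_div_mul, Nat.mul_div_cancel' hd]
    exact hm

/-- The star of a predicate, with respect to an ultrafilter. -/
def Star (P : Ultrafilter ℕ) (D : ℕ → Prop) (x : ℕ) : Prop :=
  D x ∧ ∀ᶠ m in (P : Filter ℕ), D (x + m)

lemma star_large {P : Ultrafilter ℕ} (hP : Idem P) {D : ℕ → Prop}
    (hD : ∀ᶠ m in (P : Filter ℕ), D m) : ∀ᶠ m in (P : Filter ℕ), Star P D m := by
  filter_upwards [hD, (hP.1 D).1 hD] with m h1 h2
  exact ⟨h1, h2⟩

lemma star_add {P : Ultrafilter ℕ} (hP : Idem P) {D : ℕ → Prop} {x : ℕ} (hx : Star P D x) :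
    ∀ᶠ m in (P : Filter ℕ), Star P D (x + m) := by
  have h := (hP.1 (fun m => D (x + m))).1 hx.2
  filter_upwards [hx.2, h] with m h1 h2
  refine ⟨h1, ?_⟩
  filter_upwards [h2] with m' hm'
  rwa [add_assoc]

section construction

variable {r : ℕ} (c : ℕ → Fin r) (P : Ultrafilter ℕ) (i : Fin r)

/-- The requirement on finite sums. -/
def DS (x : ℕ) : Prop :=
  0 < x ∧ c x = i ∧ ∀ᶠ m in (P : Filter ℕ), x ∣ m ∧ c (m / x) = i

/-- The requirement on pairs of finite sums. -/
def DQ (x y : ℕ) : Prop := x ∣ y ∧ c (y / x) = i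

/-- The invariant of a state: `S.1` collects finite sums, `S.2` pairs of finite sums. -/
def Inv (S : Finset ℕ × Finset (ℕ × ℕ)) : Prop :=
  (∀ x ∈ S.1, Star P (DS c P i) x) ∧ ∀ q ∈ S.2, Star P (DQ c i q.1) q.2

/-- The next state after adding the new element `m`. -/
def next (S : Finset ℕ × Finset (ℕ × ℕ)) (m : ℕ) : Finset ℕ × Finset (ℕ × ℕ) :=
  (insert m (S.1 ∪ S.1.image (fun x => x + m)),
    S.2 ∪ S.1.image (fun x => (x, m)) ∪ S.2.image (fun q => (q.1, q.2 + m)))

variable {c P i}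

lemma exists_next (hP : Idem P) (h1 : ∀ᶠ m in (P : Filter ℕ), c m = i)
    (h2 : ∀ᶠ x in (P : Filter ℕ), ∀ᶠ m in (P : Filter ℕ), c (m / x) = i)
    (S : Finset ℕ × Finset (ℕ × ℕ)) (hS : Inv c P i S) :
    ∃ m, (∀ x ∈ S.1, x < m) ∧ Inv c P i (next S m) := by
  have hDS : ∀ᶠ m in (P : Filter ℕ), DS c P i m := by
    filter_upwards [h1, h2, hP.2] with m e1 e2 e3
    refine ⟨e3, e1, ?_⟩
    filter_upwards [e2, dvd_large hP m e3] with m' e4 e5
    exact ⟨e5, e4⟩
  have a1 : ∀ᶠ m in (P : Filter ℕ), Star P (DS c P i) m := star_large hP hDS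
  have a2 : ∀ᶠ m in (P : Filter ℕ), ∀ x ∈ S.1, Star P (DS c P i) (x + m) :=
    (eventually_all_finset _).2 fun x hx => star_add hP (hS.1 x hx)
  have a3 : ∀ᶠ m in (P : Filter ℕ), ∀ x ∈ S.1, Star P (DQ c i x) m :=
    (eventually_all_finset _).2 fun x hx => star_large hP (hS.1 x hx).1.2.2
  have a4 : ∀ᶠ m in (P : Filter ℕ), ∀ q ∈ S.2, Star P (DQ c i q.1) (q.2 + m) :=
    (eventually_all_finset _).2 fun q hq => star_add hP (hS.2 q hq)
  have a5 : ∀ᶠ m in (P : Filter ℕ), ∀ x ∈ S.1, x < m :=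
    (eventually_all_finset _).2 fun x _ => gt_large hP x
  obtain ⟨m, ⟨⟨⟨b1, b2⟩, b3⟩, b4⟩, b5⟩ := ((((a1.and a2).and a3).and a4).and a5).exists
  refine ⟨m, b5, ?_, ?_⟩
  · intro x hx
    simp only [next, Finset.mem_insert, Finset.mem_union, Finset.mem_image] at hx
    rcases hx with rfl | hx | ⟨y, hy, rfl⟩
    · exact b1
    · exact hS.1 x hx
    · exact b2 y hy
  · intro q hq
    simp only [next, Finset.mem_union, Finset.mem_image] at hq
    rcases hq with (hq | ⟨y, hy, rfl⟩) | ⟨q', hq', rfl⟩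
    · exact hS.2 q hq
    · exact b3 y hy
    · exact b4 q' hq'

end construction

/-- Abstract recursion: a sequence of states. -/
lemma exists_states {r : ℕ} (c : ℕ → Fin r) : ∃ (i : Fin r) (P : Ultrafilter ℕ)
    (s : ℕ → Finset ℕ × Finset (ℕ × ℕ)) (h : ℕ → ℕ),
    (∀ n, Inv c P i (s n)) ∧ (∀ n, s (n + 1) = next (s n) (h n)) ∧
      ∀ n, ∀ x ∈ (s n).1, x < h n := by
  obtain ⟨P, i, hP, h1, h2⟩ := exists_good r c
  choose m hm using fun S : {S // Inv c P i S} => exists_next hP h1 h2 S.1 S.2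
  have h0 : Inv c P i (∅, ∅) := ⟨by simp, by simp⟩
  let s : ℕ → {S // Inv c P i S} := fun n =>
    Nat.rec ⟨(∅, ∅), h0⟩ (fun _ S => ⟨next S.1 (m S), (hm S).2⟩) n
  refine ⟨i, P, fun n => (s n).1, fun n => m (s n), fun n => (s n).2, fun n => rfl, ?_⟩
  intro n x hx
  exact (hm (s n)).1 x hx

/-- Every finite colouring of the positive integers admits an increasing sequence such that all
finite sums and all quotients of a later finite sum by an earlier one have one colour. -/
theorem strong (r : ℕ) (c : ℕ → Fin r) :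
    ∃ (i : Fin r) (h : ℕ → ℕ), StrictMono h ∧ (∀ n, 0 < h n) ∧
      (∀ F : Finset ℕ, F.Nonempty → c (∑ k ∈ F, h k) = i) ∧
      ∀ F G : Finset ℕ, F.Nonempty → G.Nonempty → (∀ f ∈ F, ∀ g ∈ G, f < g) →
        (∑ k ∈ F, h k) ∣ (∑ k ∈ G, h k) ∧ c ((∑ k ∈ G, h k) / (∑ k ∈ F, h k)) = i := by
  classical
  obtain ⟨i, P, s, h, hI, hs, hlt⟩ := exists_states c
  have hmem : ∀ n, h n ∈ (s (n + 1)).1 := by
    intro n
    rw [hs n]
    simp [next]
  have hmono1 : ∀ n x, x ∈ (s n).1 → x ∈ (s (n + 1)).1 := by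
    intro n x hx
    rw [hs n]
    simp [next, hx]
  have hmono2 : ∀ n q, q ∈ (s n).2 → q ∈ (s (n + 1)).2 := by
    intro n q hq
    rw [hs n]
    simp [next, hq]
  have hT : ∀ n, ∀ F : Finset ℕ, F.Nonempty → (∀ f ∈ F, f < n) → (∑ k ∈ F, h k) ∈ (s n).1 := by
    intro n
    induction n with
    | zero =>
      intro F hF hlt0
      obtain ⟨f, hf⟩ := hF
      exact absurd (hlt0 f hf) (Nat.not_lt_zero f)
    | succ n ih =>
      intro F hF hlt0
      by_cases hn : n ∈ F
      · have hsum : ∑ k ∈ F, h k = ∑ k ∈ F.erase n, h k + h n := by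
          rw [Finset.sum_erase_add _ _ hn]
        by_cases he : (F.erase n).Nonempty
        · have h3 := ih (F.erase n) he (fun f hf => by
            have h4 := hlt0 f (Finset.mem_of_mem_erase hf)
            have h5 := Finset.ne_of_mem_erase hf
            omega)
          rw [hsum, hs n]
          simp only [next, Finset.mem_insert, Finset.mem_union, Finset.mem_image]
          exact Or.inr (Or.inr ⟨_, h3, rfl⟩)
        · rw [Finset.not_nonempty_iff_eq_empty] at he
          rw [hsum, he, Finset.sum_empty, zero_add]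
          exact hmem n
      · apply hmono1
        apply ih F hF
        intro f hf
        have h4 := hlt0 f hf
        have h5 : f ≠ n := fun h => hn (h ▸ hf)
        omega
  have hQ : ∀ n, ∀ F G : Finset ℕ, F.Nonempty → G.Nonempty → (∀ f ∈ F, ∀ g ∈ G, f < g) →
      (∀ g ∈ G, g < n) → (∑ k ∈ F, h k, ∑ k ∈ G, h k) ∈ (s n).2 := by
    intro n
    induction n with
    | zero =>
      intro F G hF hG hFG hlt0
      obtain ⟨g, hg⟩ := hG
      exact absurd (hlt0 g hg) (Nat.not_lt_zero g)
    | succ n ih =>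
      intro F G hF hG hFG hlt0
      by_cases hn : n ∈ G
      · have hsum : ∑ k ∈ G, h k = ∑ k ∈ G.erase n, h k + h n := by
          rw [Finset.sum_erase_add _ _ hn]
        by_cases he : (G.erase n).Nonempty
        · have h3 := ih F (G.erase n) hF he
            (fun f hf g hg => hFG f hf g (Finset.mem_of_mem_erase hg)) (fun f hf => by
            have h4 := hlt0 f (Finset.mem_of_mem_erase hf)
            have h5 := Finset.ne_of_mem_erase hf
            omega)
          rw [hsum, hs n]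
          simp only [next, Finset.mem_union, Finset.mem_image]
          exact Or.inr ⟨_, h3, rfl⟩
        · rw [Finset.not_nonempty_iff_eq_empty] at he
          rw [hsum, he, Finset.sum_empty, zero_add, hs n]
          simp only [next, Finset.mem_union, Finset.mem_image]
          exact Or.inl (Or.inr ⟨_, hT n F hF (fun f hf => hFG f hf n hn), rfl⟩)
      · apply hmono2
        apply ih F G hF hG hFG
        intro f hf
        have h4 := hlt0 f hf
        have h5 : f ≠ n := fun h => hn (h ▸ hf)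
        omega
  have hbd : ∀ F : Finset ℕ, ∀ f ∈ F, f < F.sup id + 1 := fun F f hf =>
    Nat.lt_succ_of_le (Finset.le_sup (f := id) hf)
  refine ⟨i, h, ?_, ?_, ?_, ?_⟩
  · exact strictMono_nat_of_lt_succ fun n => hlt (n + 1) _ (hmem n)
  · intro n
    exact ((hI (n + 1)).1 _ (hmem n)).1.1
  · intro F hF
    exact ((hI _).1 _ (hT _ F hF (hbd F))).1.2.1
  · intro F G hF hG hFG
    have h3 := ((hI _).2 _ (hQ _ F G hF hG hFG (hbd G))).1
    exact h3

/-- The hand-in: every finite colouring of the positive integers admits a colour `i` and one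
infinite set `H` of colour `i` such that for all `x < y` in `H` the formula `φ₃` is witnessed by
`z`, `t` of colour `i`; moreover all finite sums over `H`, and all quotients of a finite sum over
`H` by an earlier one (these divisions being exact), have colour `i`. -/
theorem result (r : ℕ) (c : ℕ → Fin r) : ∃ (i : Fin r) (H : Set ℕ), H.Infinite ∧
    (∀ x ∈ H, 0 < x ∧ c x = i) ∧
    (∀ x ∈ H, ∀ y ∈ H, x < y → ∃ z t : ℕ, 0 < z ∧ 0 < t ∧ c z = i ∧ c t = i ∧ phi3 x y z t) ∧
    (∀ F : Finset ℕ, F.Nonempty → (F : Set ℕ) ⊆ H → c (∑ k ∈ F, k) = i) ∧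
    (∀ F G : Finset ℕ, F.Nonempty → G.Nonempty → (F : Set ℕ) ⊆ H → (G : Set ℕ) ⊆ H →
      (∀ f ∈ F, ∀ g ∈ G, f < g) →
        (∑ k ∈ F, k) ∣ (∑ k ∈ G, k) ∧ c ((∑ k ∈ G, k) / (∑ k ∈ F, k)) = i) := by
  classical
  obtain ⟨i, h, hmono, hpos, hsum, hquot⟩ := strong r c
  have key : ∀ F : Finset ℕ, F.Nonempty → (F : Set ℕ) ⊆ Set.range h →
      ∃ F' : Finset ℕ, F'.Nonempty ∧ F'.image h = F ∧ ∑ k ∈ F, k = ∑ k ∈ F', h k := by
    intro F hF hFH
    rw [← Set.image_univ] at hFH
    obtain ⟨F', -, hF'⟩ := Finset.subset_set_image_iff.1 hFH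
    refine ⟨F', ?_, hF', ?_⟩
    · rw [← hF'] at hF
      exact Finset.image_nonempty.1 hF
    · rw [← hF', Finset.sum_image (fun a _ b _ hab => hmono.injective hab)]
  have hQ : ∀ F G : Finset ℕ, F.Nonempty → G.Nonempty → (F : Set ℕ) ⊆ Set.range h →
      (G : Set ℕ) ⊆ Set.range h → (∀ f ∈ F, ∀ g ∈ G, f < g) →
        (∑ k ∈ F, k) ∣ (∑ k ∈ G, k) ∧ c ((∑ k ∈ G, k) / (∑ k ∈ F, k)) = i := by
    intro F G hF hG hFH hGH hFG
    obtain ⟨F', hF', eF, sF⟩ := key F hF hFH
    obtain ⟨G', hG', eG, sG⟩ := key G hG hGH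
    rw [sF, sG]
    refine hquot F' G' hF' hG' ?_
    intro f hf g hg
    have h1 : h f ∈ F := by rw [← eF]; exact Finset.mem_image_of_mem h hf
    have h2 : h g ∈ G := by rw [← eG]; exact Finset.mem_image_of_mem h hg
    exact hmono.lt_iff_lt.1 (hFG _ h1 _ h2)
  have hS : ∀ F : Finset ℕ, F.Nonempty → (F : Set ℕ) ⊆ Set.range h → c (∑ k ∈ F, k) = i := by
    intro F hF hFH
    obtain ⟨F', hF', -, sF⟩ := key F hF hFH
    rw [sF]
    exact hsum F' hF'
  refine ⟨i, Set.range h, Set.infinite_range_of_injective hmono.injective, ?_, ?_, hS, hQ⟩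
  · rintro _ ⟨n, rfl⟩
    refine ⟨hpos n, ?_⟩
    have := hsum {n} (Finset.singleton_nonempty n)
    simpa using this
  · rintro _ ⟨a, rfl⟩ _ ⟨b, rfl⟩ hab
    have hlt : a < b := hmono.lt_iff_lt.1 hab
    have h1 := hsum {a, b} (Finset.insert_nonempty a {b})
    rw [Finset.sum_pair hlt.ne] at h1
    obtain ⟨h2, h3⟩ := hquot {a} {b} (Finset.singleton_nonempty a) (Finset.singleton_nonempty b)
      (by simpa using hlt)
    simp only [Finset.sum_singleton] at h2 h3
    exact ⟨h a + h b, h b / h a, Nat.add_pos_left (hpos a) _,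
      Nat.div_pos (Nat.le_of_dvd (hpos b) h2) (hpos a), h1, h3, rfl, (Nat.div_mul_cancel h2).symm⟩

/-- In particular `φ₃` is Ramsey partition regular in `(x, y) | z, t`. -/
theorem ramseyPR_phi3 : RamseyPR phi3 := by
  intro r c
  obtain ⟨i, H, hinf, hcol, hphi, -⟩ := result r c
  exact ⟨i, i, H, hinf, hcol, hphi⟩

end Pool.Agent.Results.MP_94ebd3_co.SumQuotient
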